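import Mathlib
import Pool.Agent.H174.GM.Stmts

/-!
# The variables are algebraically independent
-/

set_option autoImplicit false

namespace Pool.Agent.H218.GM174

open Finset Pool.Agent.H174.GM

/-- the exponent of a monomial -/
def exm {k : ℕ} (d : Fin k →₀ ℕ) : Ex k := toLex fun i => (d i : ℤ)

theorem exm_inj {k : ℕ} {d d' : Fin k →₀ ℕ} (h : exm d = exm d') : d = d' := by
  ext i
  have h1 : (d i : ℤ) = (d' i : ℤ) := congrFun (congrArg ofLex h) i
  exact_mod_cast h1

theorem prod_single {k : ℕ} {ι : Type} (s : Finset ι) (a : ι → Ex k) :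
    ∏ i ∈ s, (HahnSeries.single (a i) (1 : ℚ) : E k) = HahnSeries.single (∑ i ∈ s, a i) 1 := by
  classical
  induction s using Finset.induction_on with
  | empty => rfl
  | insert i s hi ih =>
    rw [Finset.prod_insert hi, Finset.sum_insert hi, ih, HahnSeries.single_mul_single, one_mul]

theorem sum_exm {k : ℕ} (d : Fin k →₀ ℕ) :
    ∑ i : Fin k, d i • (toLex (Pi.single i 1) : Ex k) = exm d := by
  have h : (ofLex (∑ i : Fin k, d i • (toLex (Pi.single i 1) : Ex k))) =
      ∑ i : Fin k, d i • (Pi.single i 1 : Fin k → ℤ) := by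
    have := map_sum (ofLexAddEquiv (Fin k → ℤ)) (fun i : Fin k => d i • (toLex (Pi.single i 1) : Ex k)) Finset.univ
    exact this
  apply ofLex.injective
  rw [h]
  funext j
  rw [Finset.sum_apply]
  show _ = (d j : ℤ)
  rw [Finset.sum_eq_single j]
  · simp
  · intro i _ hij
    simp [Pi.single_eq_of_ne' hij]
  · intro h; exact absurd (Finset.mem_univ _) h

theorem prod_xx {k : ℕ} (d : Fin k →₀ ℕ) :
    ∏ i : Fin k, (xx (k := k) i) ^ d i = HahnSeries.single (exm d) 1 := by
  unfold xx
  simp only [HahnSeries.single_pow, one_pow]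
  rw [prod_single, sum_exm]

theorem coeff_aeval {k : ℕ} (p : MvPolynomial (Fin k) ℚ) (d : Fin k →₀ ℕ) :
    (MvPolynomial.aeval (xx (k := k)) p).coeff (exm d) = p.coeff d := by
  rw [MvPolynomial.aeval_def, MvPolynomial.eval₂_eq']
  simp only [prod_xx]
  have h1 : ∀ d' : Fin k →₀ ℕ, algebraMap ℚ (E k) (MvPolynomial.coeff d' p) *
      HahnSeries.single (exm d') 1 = HahnSeries.single (exm d') (MvPolynomial.coeff d' p) := by
    intro d'
    rw [HahnSeries.algebraMap_apply]
    show HahnSeries.single 0 _ * _ = _
    rw [HahnSeries.single_mul_single, zero_add, mul_one]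
    rfl
  simp only [h1]
  have h2 : (∑ x ∈ p.support, (HahnSeries.single (exm x) (MvPolynomial.coeff x p) : E k)).coeff (exm d) =
      ∑ x ∈ p.support, (HahnSeries.single (exm x) (MvPolynomial.coeff x p) : E k).coeff (exm d) := by
    classical
    induction p.support using Finset.induction_on with
    | empty => simp
    | insert a s ha ih =>
      rw [Finset.sum_insert ha, Finset.sum_insert ha, HahnSeries.coeff_add, ih]
  rw [h2]
  rw [Finset.sum_eq_single d]
  · rw [HahnSeries.coeff_single_same]
  · intro x _ hx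
    rw [HahnSeries.coeff_single_of_ne]
    intro h
    exact hx (exm_inj h).symm
  · intro hd
    rw [HahnSeries.coeff_single_same]
    exact MvPolynomial.notMem_support_iff.1 hd

theorem eai : S_EAI := by
  intro k
  rw [algebraicIndependent_iff]
  intro p hp
  ext d
  rw [← coeff_aeval, hp]
  simp

end Pool.Agent.H218.GM174
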