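import Mathlib
import Pool.Agent.H174.GM.Stmts

/-!
# Closure properties of the support conditions
-/

set_option autoImplicit false

namespace Pool.Agent.H218.GM174

open Finset Pool.Agent.H174.GM

/-- an exponent of a product is a sum of exponents -/
theorem exists_of_mul {k : ℕ} {f g : E k} {γ : Ex k} (h : (f * g).coeff γ ≠ 0) :
    ∃ a b : Ex k, a + b = γ ∧ f.coeff a ≠ 0 ∧ g.coeff b ≠ 0 := by
  rw [HahnSeries.coeff_mul] at h
  obtain ⟨ij, hij, _⟩ := Finset.exists_ne_zero_of_sum_ne_zero h
  rw [Finset.mem_antidiagonal] at hij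
  exact ⟨ij.1, ij.2, hij.2.2, hij.1, hij.2.1⟩

theorem ofLex_add_apply {k : ℕ} (a b : Ex k) (j : Fin k) :
    ofLex (a + b) j = ofLex a j + ofLex b j := rfl

theorem eh1 : S_EH1 := by
  intro k j a b f g
  refine ⟨?_, ?_, ?_, ?_, ?_, ?_, ?_, ?_, ?_⟩
  · intro hf hg γ hγ
    obtain ⟨c, d, rfl, hc, hd⟩ := exists_of_mul hγ
    rw [ofLex_add_apply]
    exact add_le_add (hf c hc) (hg d hd)
  · intro hf hg γ hγ
    obtain ⟨c, d, rfl, hc, hd⟩ := exists_of_mul hγ
    rw [ofLex_add_apply]
    exact add_le_add (hf c hc) (hg d hd)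
  · intro hf hg γ hγ
    by_cases h : f.coeff γ = 0
    · refine hg γ fun h' => hγ ?_
      rw [HahnSeries.coeff_add, h, h', add_zero]
    · exact hf γ h
  · intro hf hg γ hγ
    by_cases h : f.coeff γ = 0
    · refine hg γ fun h' => hγ ?_
      rw [HahnSeries.coeff_add, h, h', add_zero]
    · exact hf γ h
  · intro hf γ hγ
    refine hf γ fun h => hγ ?_
    rw [HahnSeries.coeff_neg, h, neg_zero]
  · intro hf γ hγ
    refine hf γ fun h => hγ ?_
    rw [HahnSeries.coeff_neg, h, neg_zero]
  · intro hf hb γ hγ
    exact hb.trans (hf γ hγ)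
  · intro hf hb γ hγ
    exact (hf γ hγ).trans hb
  · intro γ δ hf hg
    constructor
    · rw [HahnSeries.coeff_mul, Finset.sum_eq_single (γ, δ)]
      · exact mul_ne_zero hf.1 hg.1
      · intro ij hij hne
        rw [Finset.mem_antidiagonal] at hij
        obtain ⟨h1, h2, h3⟩ := hij
        have g1 : γ ≤ ij.1 := by
          by_contra h
          exact h1 (hf.2 _ (not_le.1 h))
        have g2 : δ ≤ ij.2 := by
          by_contra h
          exact h2 (hg.2 _ (not_le.1 h))
        exfalso
        apply hne
        have g3 : ij.1 = γ := by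
          by_contra h
          have : γ < ij.1 := lt_of_le_of_ne g1 (Ne.symm h)
          have := add_lt_add_of_lt_of_le this g2
          rw [h3] at this
          exact lt_irrefl _ this
        have g4 : ij.2 = δ := by
          rw [g3] at h3
          exact add_left_cancel h3
        exact Prod.ext g3 g4
      · intro h
        exfalso
        apply h
        rw [Finset.mem_antidiagonal]
        exact ⟨hf.1, hg.1, rfl⟩
    · intro ε hε
      by_contra h
      obtain ⟨c, d, h3, hc, hd⟩ := exists_of_mul h
      have g1 : γ ≤ c := by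
        by_contra h
        exact hc (hf.2 _ (not_le.1 h))
      have g2 : δ ≤ d := by
        by_contra h
        exact hd (hg.2 _ (not_le.1 h))
      have := add_le_add g1 g2
      rw [h3] at this
      exact absurd hε (not_lt.2 this)

end Pool.Agent.H218.GM174
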